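import Pool.Agent.H313.SL.Gaps

set_option autoImplicit false

/-!
# MP_ca0a54_nt: small and large gaps between zeros at every joint size of zeta and of its argument

No hypothesis is made. Let `W(γ)` be the mean value of `log |ζ(1/2 + it)|` over the interval `|t - γ| ≤ 1 / log T`, and `S(t)` the remainder
term of the Riemann-von Mangoldt formula. There is `η > 0` such that for ALL real `k`, `l`, at least
`T (log T)^(1 - k² - l²) exp (-C √(log log T))` zeros with ordinate `γ` in `(T, 2T]` have `W(γ) = k log log T + O(√(log log T))`,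
`π S(γ) = l log log T + O(√(log log T))`, and are multiple or have another zero with ordinate at distance at most `1 - η` times the average
spacing; and the same for gaps of at least `1 + η` times the average spacing.
-/

namespace Pool.Agent.Results.MP_ca0a54_nt.GapsAtEveryJointLevel

open Filter Topology MeasureTheory Complex

noncomputable section

/-- the nontrivial zeros of zeta with ordinate in `(T, 2T]` -/
def zeros (T : ℝ) : Set ℂ := {s : ℂ | riemannZeta s = 0 ∧ 0 < s.re ∧ s.re < 1 ∧ T < s.im ∧ s.im ≤ 2 * T}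

/-- the average spacing -/
def spacing (T : ℝ) : ℝ := 2 * Real.pi / Real.log T

/-- the zeros which are multiple or have another zero with ordinate at distance at most `(1 - η)` average spacings -/
def close (η T : ℝ) : Set ℂ := {s : ℂ | s ∈ zeros T ∧ (2 ≤ analyticOrderNatAt riemannZeta s ∨
  ∃ s' : ℂ, riemannZeta s' = 0 ∧ 0 < s'.re ∧ s'.re < 1 ∧ s' ≠ s ∧ |s'.im - s.im| ≤ (1 - η) * spacing T)}

/-- the zeros whose ordinate is not followed by another ordinate at distance less than `(1 + η)` average spacings -/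
def apart (η T : ℝ) : Set ℂ := {s : ℂ | s ∈ zeros T ∧
  ∀ s' : ℂ, riemannZeta s' = 0 → 0 < s'.re → s'.re < 1 → ¬ (s.im < s'.im ∧ s'.im < s.im + (1 + η) * spacing T)}

/-- the mean value of `log |ζ(1/2 + it)|` over `|t - γ| ≤ 1 / log T` -/
def W (T γ : ℝ) : ℝ := Real.log T / 2 * ∫ t in (γ - 1 / Real.log T)..(γ + 1 / Real.log T), Real.log ‖riemannZeta (1 / 2 + t * I)‖

/-- the number `N(t)` of the nontrivial zeros with ordinate in `(0, t]`, counted with multiplicity -/
def N (t : ℝ) : ℕ := ∑ᶠ s ∈ {s : ℂ | riemannZeta s = 0 ∧ 0 < s.re ∧ s.re < 1 ∧ 0 < s.im ∧ s.im ≤ t}, analyticOrderNatAt riemannZeta s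

/-- the remainder term of the Riemann-von Mangoldt formula (`π⁻¹ arg ζ(1/2 + it)` up to `O(1/t)`) -/
def S (t : ℝ) : ℝ :=
  (N t : ℝ) - (t / (2 * Real.pi) * Real.log (t / (2 * Real.pi)) - t / (2 * Real.pi) + 7 / 8)

/-- the ordinates near which zeta has the size `(log T)^k` and `π S` the value `l log log T`, up to `A √(log log T)` in both logarithms -/
def level (k l A T : ℝ) : Set ℂ := {s : ℂ | |W T s.im - k * Real.log (Real.log T)| ≤ A * Real.sqrt (Real.log (Real.log T)) ∧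
  |Real.pi * S s.im - l * Real.log (Real.log T)| ≤ A * Real.sqrt (Real.log (Real.log T))}

lemma zeros_eq (T : ℝ) : zeros T = H370.zset riemannZeta T (2 * T) := by
  ext s
  simp only [zeros, H370.zset, Set.mem_ofPred_eq]
  tauto

theorem zeros_finite (T : ℝ) (h : 0 < T) : (zeros T).Finite := by
  rw [zeros_eq]
  exact H370.zset_finite' H370.good_zeta T (2 * T) h

lemma mem_iff {T : ℝ} (hT : 1 ≤ T) (s : ℂ) : s ∈ zeros T ↔ s ∈ H370.Zf riemannZeta T (2 * T) := by
  rw [H370.mem_Zf H370.good_zeta hT, zeros_eq]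

lemma near_mem {T x : ℝ} (hT : 16 ≤ T) {s s' : ℂ} (hs : s ∈ zeros T) (h0 : riemannZeta s' = 0) (h1 : 0 < s'.re) (h2 : s'.re < 1)
    (hx : x ≤ 8) (hd : |s'.im - s.im| ≤ x) : s' ∈ Pool.Agent.Q97.UM.ZD T := by
  unfold Pool.Agent.Q97.UM.ZD
  rw [H370.mem_Zf H370.good_zeta (by linarith : (1 : ℝ) ≤ T / 16)]
  obtain ⟨_, _, _, h3, h4⟩ := hs
  rw [abs_le] at hd
  exact ⟨h1, h2, by linarith, by linarith, h0⟩

open Classical in
lemma close_eq {η T : ℝ} (hT : 16 ≤ T) (hη : 0 < η) (hη1 : η ≤ 1 / 2) : close η T =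
    (((H370.Zf riemannZeta T (2 * T)).filter (fun s => 2 ≤ Pool.Agent.Q97.UM.mz s ∨
      ∃ s' ∈ Pool.Agent.Q97.UM.ZD T, s' ≠ s ∧ |s'.im - s.im| ≤ (1 - η) * (2 * Real.pi / Real.log T)) : Finset ℂ) : Set ℂ) := by
  have hlog : 1 ≤ Real.log T := by
    rw [Real.le_log_iff_exp_le (by linarith)]
    have := Real.exp_one_lt_d9
    linarith
  have hsp : (1 - η) * (2 * Real.pi / Real.log T) ≤ 8 := by
    have hpi := Real.pi_lt_four
    have h1 : 2 * Real.pi / Real.log T ≤ 8 := by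
      rw [div_le_iff₀ (by linarith)]
      nlinarith
    have h0 : 0 ≤ 2 * Real.pi / Real.log T := by positivity
    nlinarith
  ext s
  simp only [close, Set.mem_ofPred_eq, Finset.coe_filter]
  constructor
  · rintro ⟨hs, h⟩
    refine ⟨?_, ?_⟩
    · exact (mem_iff (by linarith) s).1 hs
    · rcases h with h | ⟨s', h0, h1, h2, h3, h4⟩
      · exact Or.inl h
      · exact Or.inr ⟨s', near_mem hT hs h0 h1 h2 hsp h4, h3, h4⟩
  · rintro ⟨hs, h⟩
    have hs' : s ∈ zeros T := (mem_iff (by linarith) s).2 hs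
    refine ⟨hs', ?_⟩
    rcases h with h | ⟨s', h0, h3, h4⟩
    · exact Or.inl h
    · unfold Pool.Agent.Q97.UM.ZD at h0
      rw [H370.mem_Zf H370.good_zeta (by linarith : (1 : ℝ) ≤ T / 16)] at h0
      exact Or.inr ⟨s', h0.2.2.2.2, h0.1, h0.2.1, h3, h4⟩

open Classical in
lemma apart_eq {η T : ℝ} (hT : 16 ≤ T) (hη : 0 < η) (hη1 : η ≤ 1 / 2) : apart η T =
    (((H370.Zf riemannZeta T (2 * T)).filter (fun s => ∀ s' ∈ Pool.Agent.Q97.UM.ZD T,
      ¬ (s.im < s'.im ∧ s'.im < s.im + (1 + η) * (2 * Real.pi / Real.log T))) : Finset ℂ) : Set ℂ) := by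
  have hlog : 1 ≤ Real.log T := by
    rw [Real.le_log_iff_exp_le (by linarith)]
    have := Real.exp_one_lt_d9
    linarith
  have hlog2 : (2 : ℝ) ≤ Real.log T := by
    rw [Real.le_log_iff_exp_le (by linarith)]
    have h1 := Real.exp_one_lt_d9
    have h2 : Real.exp 2 = Real.exp 1 * Real.exp 1 := by rw [← Real.exp_add]; norm_num
    rw [h2]
    have := Real.exp_pos 1
    nlinarith
  have hsp : (1 + η) * (2 * Real.pi / Real.log T) ≤ 8 := by
    have hpi := Real.pi_lt_four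
    have h1 : 2 * Real.pi / Real.log T ≤ 4 := by
      rw [div_le_iff₀ (by linarith)]
      nlinarith
    have h0 : 0 ≤ 2 * Real.pi / Real.log T := by positivity
    nlinarith
  ext s
  simp only [apart, Set.mem_ofPred_eq, Finset.coe_filter]
  constructor
  · rintro ⟨hs, h⟩
    refine ⟨?_, ?_⟩
    · exact (mem_iff (by linarith) s).1 hs
    · intro s' h0
      unfold Pool.Agent.Q97.UM.ZD at h0
      rw [H370.mem_Zf H370.good_zeta (by linarith : (1 : ℝ) ≤ T / 16)] at h0
      exact h s' h0.2.2.2.2 h0.1 h0.2.1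
  · rintro ⟨hs, h⟩
    have hs' : s ∈ zeros T := (mem_iff (by linarith) s).2 hs
    refine ⟨hs', ?_⟩
    intro s' h0 h1 h2 h3
    refine h s' (near_mem hT hs' h0 h1 h2 hsp ?_) h3
    rw [abs_le]
    unfold spacing at h3
    constructor <;> linarith [h3.1, h3.2]

lemma N_eq (t : ℝ) : N t = H370.NN riemannZeta 0 t := by
  unfold N H370.NN
  have : {s : ℂ | riemannZeta s = 0 ∧ 0 < s.re ∧ s.re < 1 ∧ 0 < s.im ∧ s.im ≤ t} = H370.zset riemannZeta 0 t := by
    ext s
    simp only [H370.zset, Set.mem_ofPred_eq]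
    tauto
  rw [this]
  rfl

lemma N_add {t : ℝ} (ht : 1 ≤ t) : (N t : ℝ) = N 1 + (H370.NN riemannZeta 1 t : ℝ) := by
  rw [N_eq, N_eq]
  have h : H370.zset riemannZeta 0 t = H370.zset riemannZeta 0 1 ∪ H370.zset riemannZeta 1 t := by
    ext s
    simp only [H370.zset, Set.mem_ofPred_eq, Set.mem_union]
    constructor
    · rintro ⟨a1, a2, a3, a4, a5⟩
      rcases le_or_gt s.im 1 with h1 | h1
      · exact Or.inl ⟨a1, a2, a3, h1, a5⟩
      · exact Or.inr ⟨a1, a2, h1, a4, a5⟩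
    · rintro (⟨a1, a2, a3, a4, a5⟩ | ⟨a1, a2, a3, a4, a5⟩)
      · exact ⟨a1, a2, a3, a4.trans ht, a5⟩
      · exact ⟨a1, a2, by linarith, a4, a5⟩
  have hd : Disjoint (H370.zset riemannZeta 0 1) (H370.zset riemannZeta 1 t) := by
    rw [Set.disjoint_left]
    rintro s ⟨-, -, -, h1, -⟩ ⟨-, -, h2, -, -⟩
    linarith
  unfold H370.NN
  rw [h, finsum_mem_union hd (H370.zeta_zeros_finite 1) ((H370.zeta_zeros_finite t).subset ?_)]
  · push_cast
    ring
  · rintro s ⟨a1, a2, a3, a4, a5⟩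
    exact ⟨a1, a2, by linarith, a4, a5⟩

lemma S_eq {t : ℝ} (ht : 1 ≤ t) : S t = Pool.Agent.K4H8.JG.E1 t + (N 1 - 7 / 8) := by
  unfold S Pool.Agent.K4H8.JG.E1 Pool.Agent.K4H8.JG.Em
  rw [N_add ht]
  ring

theorem result :
    (∀ T : ℝ, 0 < T → (zeros T).Finite) ∧
    ∃ η : ℝ, 0 < η ∧ ∀ k l : ℝ, ∃ A C T₀ : ℝ, ∀ T : ℝ, T₀ ≤ T →
      T * Real.log T ^ (1 - k ^ 2 - l ^ 2) * Real.exp (-C * Real.sqrt (Real.log (Real.log T))) ≤ ((close η T ∩ level k l A T).ncard : ℝ) ∧
      T * Real.log T ^ (1 - k ^ 2 - l ^ 2) * Real.exp (-C * Real.sqrt (Real.log (Real.log T))) ≤ ((apart η T ∩ level k l A T).ncard : ℝ) := by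
  classical
  refine ⟨zeros_finite, ?_⟩
  obtain ⟨η, hη, hη1, h⟩ := Pool.Agent.H313.SL.gaps_level2
  refine ⟨η, hη, fun k l => ?_⟩
  obtain ⟨A, C, hA, hC, hk⟩ := h ((k : ℂ) + (l : ℂ) * I)
  have hll : Tendsto (fun T : ℝ => Real.log (Real.log T)) atTop atTop :=
    Real.tendsto_log_atTop.comp Real.tendsto_log_atTop
  obtain ⟨T₀, hT₀⟩ := eventually_atTop.1 (hk.and ((eventually_ge_atTop (16 : ℝ)).and (hll.eventually_ge_atTop 1)))
  obtain ⟨c, hc⟩ : ∃ c : ℝ, c = (N 1 : ℝ) - 7 / 8 := ⟨_, rfl⟩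
  have hnorm : ‖(k : ℂ) + (l : ℂ) * I‖ ^ 2 = k ^ 2 + l ^ 2 := by
    rw [← Complex.normSq_eq_norm_sq, Complex.normSq_add_mul_I]
  have hre : ((k : ℂ) + (l : ℂ) * I).re = k := by simp
  have him : ((k : ℂ) + (l : ℂ) * I).im = l := by simp
  refine ⟨A + Real.pi * |c|, C, T₀, fun T hT => ?_⟩
  obtain ⟨⟨h1, h2⟩, h3, hS1⟩ := hT₀ T hT
  have hL : 0 < Real.log T := Real.log_pos (by linarith)
  have e1 : T * Real.log T ^ (1 - k ^ 2 - l ^ 2) * Real.exp (-C * Real.sqrt (Real.log (Real.log T))) =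
      T * Real.exp ((1 - ‖(k : ℂ) + (l : ℂ) * I‖ ^ 2) * Real.log (Real.log T) - C * Real.sqrt (Real.log (Real.log T))) := by
    rw [hnorm, Real.rpow_def_of_pos hL, mul_assoc, ← Real.exp_add]
    congr 2
    ring
  rw [e1]
  have hSq1 : 1 ≤ Real.sqrt (Real.log (Real.log T)) := Real.one_le_sqrt.2 hS1
  have hc0 : 0 ≤ Real.pi * |c| := by positivity
  have hlev : ∀ s : ℂ, T < s.im → Pool.Agent.H313.SL.Lev ((k : ℂ) + (l : ℂ) * I) A T s → s ∈ level k l (A + Real.pi * |c|) T := by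
    rintro s hs ⟨g1, g2⟩
    rw [hre] at g1
    rw [him] at g2
    have hcS : Real.pi * |c| ≤ Real.pi * |c| * Real.sqrt (Real.log (Real.log T)) := le_mul_of_one_le_right hc0 hSq1
    refine ⟨?_, ?_⟩
    · have g1' : |W T s.im - k * Real.log (Real.log T)| ≤ A * Real.sqrt (Real.log (Real.log T)) := g1
      refine g1'.trans ?_
      rw [add_mul]
      linarith
    · rw [S_eq (by linarith), ← hc]
      have e2 : Real.pi * (Pool.Agent.K4H8.JG.E1 s.im + c) - l * Real.log (Real.log T) =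
          (Real.pi * Pool.Agent.K4H8.JG.E1 s.im - l * Real.log (Real.log T)) + Real.pi * c := by ring
      rw [e2]
      refine (abs_add_le _ _).trans ?_
      rw [abs_mul Real.pi c, abs_of_pos Real.pi_pos, add_mul]
      linarith
  have hfin : (zeros T).Finite := zeros_finite T (by linarith)
  constructor
  · refine h1.trans ?_
    rw [← Set.ncard_coe_finset]
    have : (((Pool.Agent.Q97.UM.Zcl η T).filter (fun s => Pool.Agent.H313.SL.Lev ((k : ℂ) + (l : ℂ) * I) A T s) : Finset ℂ) : Set ℂ) ⊆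
        close η T ∩ level k l (A + Real.pi * |c|) T := by
      intro s hs
      rw [Finset.mem_coe, Finset.mem_filter] at hs
      have hs1 : s ∈ close η T := by
        rw [close_eq h3 hη hη1]
        exact hs.1
      exact ⟨hs1, hlev s hs1.1.2.2.2.1 hs.2⟩
    exact_mod_cast Set.ncard_le_ncard this (hfin.subset fun s hs => hs.1.1)
  · refine h2.trans ?_
    rw [← Set.ncard_coe_finset]
    have : (((Pool.Agent.Q97.UM.Zap η T).filter (fun s => Pool.Agent.H313.SL.Lev ((k : ℂ) + (l : ℂ) * I) A T s) : Finset ℂ) : Set ℂ) ⊆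
        apart η T ∩ level k l (A + Real.pi * |c|) T := by
      intro s hs
      rw [Finset.mem_coe, Finset.mem_filter] at hs
      have hs1 : s ∈ apart η T := by
        rw [apart_eq h3 hη hη1]
        exact hs.1
      exact ⟨hs1, hlev s hs1.1.2.2.2.1 hs.2⟩
    exact_mod_cast Set.ncard_le_ncard this (hfin.subset fun s hs => hs.1.1)

end

end Pool.Agent.Results.MP_ca0a54_nt.GapsAtEveryJointLevel
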