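import Pool.Agent.H523.ZG.Prop

set_option autoImplicit false

/-!
# Gaps between zeros below half of the mean spacing, modulo almost all prime polynomials

The question in the polynomial ring over a finite field with `q` elements (`q` may be fixed): the
zeros of all the Dirichlet `L`-functions modulo a prime polynomial `Q` of degree `d`, `d` large. Each
of these `L`-functions has `d - 1` or `d - 2` zeros on the critical circle, so that `2π / d` is less
than the mean spacing of their angles.
-/

namespace Pool.Agent.Results.MP_ca0a54_nt.GapsBelowHalf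

open Polynomial
open Pool.Agent.H341R2.Sharp (Mon mem_Mon)
open Pool.Agent.H523.FF (Ir mem_Ir two_le_card)
open Pool.Agent.H523

/-- the `L`-function `L(u, χ)`, `u = q ^ (-s)`, of a character `χ` modulo `Q`: the sum of
`χ f * u ^ deg f` over the monic `f` of degree less than `deg Q` (for `χ` nonprincipal the monic
polynomials of each larger degree contribute zero) -/
noncomputable def L {F : Type} [Field F] (Q : F[X]) (χ : MulChar (AdjoinRoot Q) ℂ) : ℂ[X] :=
  ∑ k ∈ Finset.range Q.natDegree,
    C (∑ᶠ f ∈ {f : F[X] | f.Monic ∧ f.natDegree = k}, χ (AdjoinRoot.mk Q f)) * X ^ k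

open scoped Classical in
/-- the zeros `u` of `L(u, χ)` on the critical circle `|u| = q ^ (-1/2)`, with multiplicities -/
noncomputable def zeros {F : Type} [Field F] [Fintype F] (Q : F[X])
    (χ : MulChar (AdjoinRoot Q) ℂ) : Multiset ℂ :=
  (L Q χ).roots.filter (fun u => ‖u‖ = (√(Fintype.card F : ℝ))⁻¹)

open scoped Classical in
/-- the number of the zeros `u` of `L(u, χ)` on the critical circle, with multiplicities, such that
at least two zeros `v` (with multiplicities, `u` itself is one of them) are at angular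
distance `|arg (u / v)|` less than `δ` from `u` -/
noncomputable def closeZeros {F : Type} [Field F] [Fintype F] (Q : F[X])
    (χ : MulChar (AdjoinRoot Q) ℂ) (δ : ℝ) : ℕ :=
  (zeros Q χ).countP (fun u => 2 ≤ (zeros Q χ).countP (fun v => |Complex.arg (u / v)| < δ))

/-- the sum over the nonprincipal characters modulo `Q` -/
noncomputable def total {F : Type} [Field F] (Q : F[X])
    (g : MulChar (AdjoinRoot Q) ℂ → ℕ) : ℝ :=
  ∑ᶠ χ ∈ {χ : MulChar (AdjoinRoot Q) ℂ | χ ≠ 1}, (g χ : ℝ)

lemma L_eq {F : Type} [Field F] [Fintype F] (Q : F[X]) (χ : MulChar (AdjoinRoot Q) ℂ) :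
    L Q χ = CM.Lp Q χ := by
  classical
  unfold L CM.Lp
  refine Finset.sum_congr rfl (fun k _ => ?_)
  congr 2
  have h : {f : F[X] | f.Monic ∧ f.natDegree = k} = ((Mon F k : Finset F[X]) : Set F[X]) := by
    ext f
    rw [Set.mem_ofPred_eq, Finset.mem_coe, mem_Mon]
  rw [h, finsum_mem_coe_finset]

lemma zeros_eq {F : Type} [Field F] [Fintype F] (Q : F[X]) (χ : MulChar (AdjoinRoot Q) ℂ) :
    zeros Q χ = CM.zs χ := by
  unfold zeros CM.zs
  rw [L_eq]

open scoped Classical in
lemma closeZeros_eq {F : Type} [Field F] [Fintype F] (Q : F[X]) (χ : MulChar (AdjoinRoot Q) ℂ)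
    (δ : ℝ) : closeZeros Q χ δ = (CM.zs χ).countP (fun u => 2 ≤ (CM.zs χ).countP
      (fun v => |Complex.arg (u / v)| < δ)) := by
  unfold closeZeros
  rw [zeros_eq]

open scoped Classical in
lemma total_eq {F : Type} [Field F] [Fintype F] (Q : F[X])
    [Fintype (MulChar (AdjoinRoot Q) ℂ)] (g : MulChar (AdjoinRoot Q) ℂ → ℕ) :
    total Q g = ∑ χ ∈ (Finset.univ : Finset (MulChar (AdjoinRoot Q) ℂ)).erase 1, (g χ : ℝ) := by
  have h : {χ : MulChar (AdjoinRoot Q) ℂ | χ ≠ 1} =
      (((Finset.univ : Finset (MulChar (AdjoinRoot Q) ℂ)).erase 1 :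
        Finset (MulChar (AdjoinRoot Q) ℂ)) : Set (MulChar (AdjoinRoot Q) ℂ)) := by
    ext χ
    simp
  unfold total
  rw [h, finsum_mem_coe_finset]

/-- **Gaps below half of the mean spacing modulo almost all prime polynomials.**

(1), for every monic irreducible `Q` of degree `d ≥ 2` over a finite field with `q` elements: for
every nonprincipal character modulo `Q`, all the zeros of `L(u, χ)` other than `u = 1` lie on the
critical circle `|u| = q ^ (-1/2)` and there are `d - 1` or `d - 2` of them.

(2) There are `c > 0`, `δ > 0` and `N` such that for every finite field with `q` elements and every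
`d ≥ N`, for all but at most `q ^ (d - δ d)` of the monic irreducible `Q` of degree `d`: the number of
the zeros which have another zero of the same `L(u, χ)` (or themselves once more, if they are
multiple) at angular distance less than `0.489 * (2π / d)` is, in the sum over all nonprincipal
characters modulo `Q`, at least `c` times the number of the zeros. -/
theorem result :
    (∀ (F : Type) [Field F] [Fintype F] (Q : F[X]), Q.Monic → Irreducible Q → 2 ≤ Q.natDegree →
      ∀ χ : MulChar (AdjoinRoot Q) ℂ, χ ≠ 1 →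
        (∀ u : ℂ, (L Q χ).IsRoot u → u ≠ 1 → ‖u‖ = (√(Fintype.card F : ℝ))⁻¹) ∧
        ((zeros Q χ).card = Q.natDegree - 1 ∨ (zeros Q χ).card = Q.natDegree - 2)) ∧
    ∃ c : ℝ, 0 < c ∧ ∃ δ : ℝ, 0 < δ ∧ ∃ N : ℕ,
      ∀ (F : Type) [Field F] [Fintype F] (d : ℕ), N ≤ d →
        ({Q : F[X] | Q.Monic ∧ Irreducible Q ∧ Q.natDegree = d ∧
          ¬(c * total Q (fun χ => (zeros Q χ).card) ≤
              total Q (fun χ => closeZeros Q χ (0.489 * (2 * Real.pi / d))))}.ncard : ℝ) ≤
          (Fintype.card F : ℝ) ^ ((d : ℝ) - δ * d) := by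
  classical
  constructor
  · intro F _ _ Q hQ hirr hd χ hχ
    have hL0 : CM.Lp Q χ ≠ 0 := CM.Lp_ne_zero (by omega) χ
    constructor
    · intro u hu hu1
      have hmem : u ∈ (CM.Lp Q χ).roots := by
        rw [mem_roots hL0, ← L_eq]
        exact hu
      by_cases he : CM.EvenC χ
      · obtain ⟨h1, -⟩ := CM.zs_even hQ hirr hd hχ he
        rw [h1, Multiset.mem_cons] at hmem
        rcases hmem with h | h
        · exact absurd h hu1
        · unfold CM.zs at h
          exact (Multiset.mem_filter.mp h).2
      · obtain ⟨h1, -⟩ := CM.zs_odd hQ hirr hd hχ he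
        rw [← h1] at hmem
        unfold CM.zs at hmem
        exact (Multiset.mem_filter.mp hmem).2
    · rw [zeros_eq]
      by_cases he : CM.EvenC χ
      · exact Or.inr (CM.zs_even hQ hirr hd hχ he).2
      · exact Or.inl (CM.zs_odd hQ hirr hd hχ he).2
  · obtain ⟨c, hc, δ, hδ, N, hN⟩ := ZG.gaps2
    refine ⟨c, hc, δ, hδ, N, ?_⟩
    intro F _ _ d hd
    obtain ⟨E, hE, hgood⟩ := hN F d hd
    have hcc : 0.489 * (2 * Real.pi / (d:ℝ)) = ZG.cc / d := by
      unfold ZG.cc
      ring
    rw [hcc]
    refine le_trans ?_ hE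
    rw [← Set.ncard_coe_finset]
    refine Nat.cast_le.mpr (Set.ncard_le_ncard ?_ (Finset.finite_toSet _))
    rintro Q ⟨hQ, hirr, hQd, hbad⟩
    rw [Finset.mem_coe]
    by_contra hQE
    apply hbad
    have hfin : Finite (MulChar (AdjoinRoot Q) ℂ) := by
      have := RH.finite_adjoinRoot hQ
      infer_instance
    have hft : Fintype (MulChar (AdjoinRoot Q) ℂ) := Fintype.ofFinite _
    have h := hgood Q hQ hirr hQd hQE
    rw [total_eq, total_eq]
    simp_rw [closeZeros_eq, zeros_eq]
    exact h

end Pool.Agent.Results.MP_ca0a54_nt.GapsBelowHalf
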