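import Pool.Agent.H510.GP.Glb

/-!
# Small and large gaps between the zeros of zeta in every universality class

No hypothesis is assumed. There is an absolute constant `c > 0` such that, for every class `A` of functions on a compact subset `K`
of the strip `1/2 < Re z < 1`, among the nontrivial zeros whose function `z ↦ ζ(z + iγ)` is close to a member of `A` on `K` a
proportion of at least `c` has a gap of at most `1 - η` mean spacings on one side, and a proportion of at least `c` is followed by a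
gap of at least `1 + η` mean spacings; here `η > 0` is absolute, too. In particular Voronin's universality theorem, and Bagchi's
recurrence criterion for the Riemann hypothesis, hold with the heights `t` replaced by the ordinates at a small gap, and with the heights
replaced by the ordinates at a large gap; both have positive proportion among all the nontrivial zeros.
-/

set_option autoImplicit false

open Complex Filter Topology MeasureTheory

namespace Pool.Agent.Results.MP_ca0a54_nt.GapsInUniversalityClasses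

/-- the nontrivial zeros of zeta with ordinate in `(a, b]` -/
def Zeros (a b : ℝ) : Set ℂ := {s : ℂ | riemannZeta s = 0 ∧ 0 < s.re ∧ s.re < 1 ∧ a < s.im ∧ s.im ≤ b}

/-- the zero `s` is multiple, or there is another nontrivial zero `s'` whose ordinate has a distance of at most `1 - η` mean
spacings `2 π / log (Im s)` from the ordinate of `s` -/
def SmallGap (η : ℝ) (s : ℂ) : Prop := 2 ≤ analyticOrderNatAt riemannZeta s ∨ ∃ s' : ℂ, riemannZeta s' = 0 ∧ 0 < s'.re ∧ s'.re < 1 ∧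
  s' ≠ s ∧ |s'.im - s.im| * (Real.log s.im / (2 * Real.pi)) ≤ 1 - η

/-- the ordinates of all the nontrivial zeros above `γ` have a distance of at least `1 + η` mean spacings `2 π / log γ` from `γ` -/
def LargeGap (η γ : ℝ) : Prop := ∀ s' : ℂ, riemannZeta s' = 0 → 0 < s'.re → s'.re < 1 → γ < s'.im →
  1 + η ≤ (s'.im - γ) * (Real.log γ / (2 * Real.pi))

/-- the function `z ↦ ζ(z + it)` is, uniformly on `K`, at distance less than `x` from a member of the class `A` -/
def Near (K : Set ℂ) (A : Set (ℂ → ℂ)) (x t : ℝ) : Prop :=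
  ∃ f ∈ A, ∃ r < x, ∀ z ∈ K, ‖riemannZeta (z + t * I) - f z‖ ≤ r

/-- the (Lebesgue) measure of the heights `t` in `(a, b]` with the property `P` -/
noncomputable def Heights (a b : ℝ) (P : ℝ → Prop) : ℝ := (volume {t : ℝ | t ∈ Set.Ioc a b ∧ P t}).toReal

/-- the number, with multiplicity, of the nontrivial zeros at a small gap whose ordinate is in `(a, b]` and has the property `P` -/
noncomputable def AtSmall (η a b : ℝ) (P : ℝ → Prop) : ℝ :=
  ∑ᶠ s ∈ {s ∈ Zeros a b | SmallGap η s ∧ P s.im}, (analyticOrderNatAt riemannZeta s : ℝ)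

/-- the number of the different ordinates in `(a, b]` of nontrivial zeros that are followed by a large gap and have the property `P` -/
noncomputable def AtLarge (η a b : ℝ) (P : ℝ → Prop) : ℝ :=
  (({γ : ℝ | ((∃ s ∈ Zeros a b, s.im = γ) ∧ LargeGap η γ) ∧ P γ}.ncard : ℕ) : ℝ)

theorem result :
    -- absolute constants
    ∃ η c : ℝ, 0 < η ∧ η ≤ 1 / 2 ∧ 0 < c ∧
    -- (1) the shares of all classes `A`, for all radii `x` at once, on `(T, 2T]` and on `(0, T]`: small gaps, large gaps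
    (∀ K : Set ℂ, IsCompact K → (∀ z ∈ K, 1 / 2 < z.re ∧ z.re < 1) → ∀ κ : ℝ, 0 < κ → ∀ ε : ℝ, 0 < ε → ∀ᶠ T : ℝ in atTop,
      ∀ a b : ℝ, (a = T ∧ b = 2 * T ∨ a = 0 ∧ b = T) → ∀ (A : Set (ℂ → ℂ)) (x : ℝ),
        c * (Real.log T * Heights a b (Near K A x)) - ε * T * Real.log T ≤ AtSmall η a b (Near K A (x + κ)) ∧
        c * (Real.log T * Heights a b (Near K A x)) - ε * T * Real.log T ≤ AtLarge η a b (Near K A (x + κ))) ∧
    -- (2) universality at the small gaps and at the large gaps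
    (∀ K : Set ℂ, IsCompact K → (∀ z ∈ K, 1 / 2 < z.re ∧ z.re < 1) → IsConnected Kᶜ →
      ∀ f : ℂ → ℂ, ContinuousOn f K → DifferentiableOn ℂ f (interior K) → (∀ z ∈ interior K, f z ≠ 0) →
      ∀ x : ℝ, 0 < x → ∃ p : ℝ, 0 < p ∧ ∀ᶠ T : ℝ in atTop,
        p * (T * Real.log T) ≤ AtSmall η 0 T (fun γ => ∀ z ∈ K, ‖riemannZeta (z + γ * I) - f z‖ < x) ∧
        p * (T * Real.log T) ≤ AtLarge η 0 T (fun γ => ∀ z ∈ K, ‖riemannZeta (z + γ * I) - f z‖ < x)) ∧
    -- (3) a class is approached at a positive proportion of the heights, of the zeros at a small gap, or at a large gap: equivalent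
    (∀ K : Set ℂ, IsCompact K → (∀ z ∈ K, 1 / 2 < z.re ∧ z.re < 1) → ∀ A : Set (ℂ → ℂ), List.TFAE [
      ∀ x : ℝ, 0 < x → ∃ p : ℝ, 0 < p ∧ ∀ᶠ T : ℝ in atTop, p * T ≤ Heights 0 T (Near K A x),
      ∀ x : ℝ, 0 < x → ∃ p : ℝ, 0 < p ∧ ∀ᶠ T : ℝ in atTop, p * (T * Real.log T) ≤ AtSmall η 0 T (Near K A x),
      ∀ x : ℝ, 0 < x → ∃ p : ℝ, 0 < p ∧ ∀ᶠ T : ℝ in atTop, p * (T * Real.log T) ≤ AtLarge η 0 T (Near K A x)]) ∧
    -- (4) the Riemann hypothesis is self-approximation of zeta at the small gaps, and at the large gaps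
    List.TFAE [
      RiemannHypothesis,
      ∀ K : Set ℂ, IsCompact K → (∀ z ∈ K, 1 / 2 < z.re ∧ z.re < 1) → IsConnected Kᶜ → ∀ x : ℝ, 0 < x →
        ∃ p : ℝ, 0 < p ∧ ∀ᶠ T : ℝ in atTop, p * (T * Real.log T) ≤
          AtSmall η 0 T (fun γ => ∀ z ∈ K, ‖riemannZeta (z + γ * I) - riemannZeta z‖ < x),
      ∀ K : Set ℂ, IsCompact K → (∀ z ∈ K, 1 / 2 < z.re ∧ z.re < 1) → IsConnected Kᶜ → ∀ x : ℝ, 0 < x →
        ∃ p : ℝ, 0 < p ∧ ∀ᶠ T : ℝ in atTop, p * (T * Real.log T) ≤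
          AtLarge η 0 T (fun γ => ∀ z ∈ K, ‖riemannZeta (z + γ * I) - riemannZeta z‖ < x)] := by
  obtain ⟨η, hη, hη1, ⟨c, hc, hmain⟩, hden⟩ := H510.GP.gaps_density
  -- monotonicity in the property
  have hS : ∀ (T : ℝ) (P Q : ℝ → Prop), (∀ t, P t → Q t) → AtSmall η 0 T P ≤ AtSmall η 0 T Q := by
    intro T P Q h
    unfold AtSmall
    have hf : {s ∈ Zeros 0 T | SmallGap η s ∧ Q s.im}.Finite := (H510.UZ.zeros_finite 0 T le_rfl).subset fun _ h => h.1
    have hf2 : {s ∈ Zeros 0 T | SmallGap η s ∧ P s.im}.Finite := (H510.UZ.zeros_finite 0 T le_rfl).subset fun _ h => h.1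
    rw [finsum_mem_eq_finite_toFinset_sum _ hf, finsum_mem_eq_finite_toFinset_sum _ hf2]
    apply Finset.sum_le_sum_of_subset_of_nonneg
    · intro s hs
      rw [Set.Finite.mem_toFinset] at hs ⊢
      exact ⟨hs.1, hs.2.1, h _ hs.2.2⟩
    · intro _ _ _
      exact Nat.cast_nonneg _
  have hLg : ∀ (T : ℝ) (P Q : ℝ → Prop), (∀ t, P t → Q t) → AtLarge η 0 T P ≤ AtLarge η 0 T Q := by
    intro T P Q h
    unfold AtLarge
    have hf : {γ : ℝ | ((∃ s ∈ Zeros 0 T, s.im = γ) ∧ LargeGap η γ) ∧ Q γ}.Finite :=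
      (H510.GP.LO_finite η 0 T le_rfl).subset fun _ h => h.1
    have : {γ : ℝ | ((∃ s ∈ Zeros 0 T, s.im = γ) ∧ LargeGap η γ) ∧ P γ} ⊆
        {γ : ℝ | ((∃ s ∈ Zeros 0 T, s.im = γ) ∧ LargeGap η γ) ∧ Q γ} := fun γ hγ => ⟨hγ.1, h γ hγ.2⟩
    exact_mod_cast Set.ncard_le_ncard this hf
  -- from a function to the class of one function
  have hto : ∀ (K : Set ℂ) (f : ℂ → ℂ) (x t : ℝ), H510.UZ.Near K {f} x t → ∀ z ∈ K, ‖riemannZeta (z + t * I) - f z‖ < x := by
    rintro K f x t ⟨g, hg, r, hr, h2⟩ z hz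
    rw [Set.mem_singleton_iff] at hg
    subst hg
    exact lt_of_le_of_lt (h2 z hz) hr
  have hfrom : ∀ (K : Set ℂ) (f : ℂ → ℂ) (x y t : ℝ), x < y → (∀ z ∈ K, ‖riemannZeta (z + t * I) - f z‖ < x) →
      H510.UZ.Near K {f} y t := by
    intro K f x y t hxy h
    exact ⟨f, rfl, x, hxy, fun z hz => (h z hz).le⟩
  have hSden : ∀ K : Set ℂ, IsCompact K → (∀ z ∈ K, 1 / 2 < z.re ∧ z.re < 1) → ∀ (A : Set (ℂ → ℂ)) (x p : ℝ), 0 < x → 0 < p →
      (∀ᶠ T : ℝ in atTop, p * (T * Real.log T) ≤ AtSmall η 0 T (Near K A (x / 2))) →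
      ∃ c : ℝ, 0 < c ∧ ∀ᶠ U : ℝ in atTop, c * U ≤ H510.UZ.Ms 0 U (H510.UZ.Near K A x) := by
    intro K hK hKs A x p hx hp h
    exact H510.UZ.density_up K hK hKs A x hx p hp (h.mono fun T hT => hT.trans (H510.GP.CS_le_NM η T _))
  have hLden : ∀ K : Set ℂ, IsCompact K → (∀ z ∈ K, 1 / 2 < z.re ∧ z.re < 1) → ∀ (A : Set (ℂ → ℂ)) (x p : ℝ), 0 < x → 0 < p →
      (∀ᶠ T : ℝ in atTop, p * (T * Real.log T) ≤ AtLarge η 0 T (Near K A (x / 2))) →
      ∃ c : ℝ, 0 < c ∧ ∀ᶠ U : ℝ in atTop, c * U ≤ H510.UZ.Ms 0 U (H510.UZ.Near K A x) := by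
    intro K hK hKs A x p hx hp h
    exact H510.UZ.density_up K hK hKs A x hx p hp (h.mono fun T hT => hT.trans (H510.GP.LO_le_NM η T _))
  refine ⟨η, c, hη, hη1, hc, hmain, ?_, ?_, ?_⟩
  · intro K hK hKs hKc f hf hd h0 x hx
    obtain ⟨p, hp, h⟩ := hden K hK hKs {f} x hx (H510.UZ.voronin K f hK hKs hKc hf hd h0 (x / 2) (half_pos hx))
    refine ⟨p, hp, h.mono fun T hT => ⟨hT.1.trans (hS T _ _ (hto K f x)), hT.2.trans (hLg T _ _ (hto K f x))⟩⟩
  · intro K hK hKs A
    tfae_have 1 → 2 := by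
      intro h x hx
      obtain ⟨p, hp, h⟩ := hden K hK hKs A x hx (h (x / 2) (half_pos hx))
      exact ⟨p, hp, h.mono fun T hT => hT.1⟩
    tfae_have 1 → 3 := by
      intro h x hx
      obtain ⟨p, hp, h⟩ := hden K hK hKs A x hx (h (x / 2) (half_pos hx))
      exact ⟨p, hp, h.mono fun T hT => hT.2⟩
    tfae_have 2 → 1 := by
      intro h x hx
      obtain ⟨p, hp, h⟩ := h (x / 2) (half_pos hx)
      exact hSden K hK hKs A x p hx hp h
    tfae_have 3 → 1 := by
      intro h x hx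
      obtain ⟨p, hp, h⟩ := h (x / 2) (half_pos hx)
      exact hLden K hK hKs A x p hx hp h
    tfae_finish
  · -- heights of self-approximation
    have hfwd : RiemannHypothesis → ∀ K : Set ℂ, IsCompact K → (∀ z ∈ K, 1 / 2 < z.re ∧ z.re < 1) → IsConnected Kᶜ →
        ∀ x : ℝ, 0 < x → ∃ c : ℝ, 0 < c ∧ ∀ᶠ U : ℝ in atTop, c * U ≤ H510.UZ.Ms 0 U (H510.UZ.Near K {riemannZeta} x) := by
      intro hRH K hK hKs hKc x hx
      obtain ⟨d, p, hd, hp, h⟩ := H510.UZ.rh_rec.1 hRH K hK hKs hKc (x / 2) (half_pos hx)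
      exact H510.UZ.density_up K hK hKs {riemannZeta} x hx p hp (h.mono fun T hT => hT.trans (H510.UZ.SI_le_NM _ _ _))
    have hbwd : (∀ K : Set ℂ, IsCompact K → (∀ z ∈ K, 1 / 2 < z.re ∧ z.re < 1) → IsConnected Kᶜ →
        ∀ x : ℝ, 0 < x → ∃ c : ℝ, 0 < c ∧ ∀ᶠ U : ℝ in atTop, c * U ≤ H510.UZ.Ms 0 U (H510.UZ.Near K {riemannZeta} x)) →
        RiemannHypothesis := by
      intro h
      rw [H510.UZ.rh_rec]
      intro K hK hKs hKc x hx
      obtain ⟨c, hc, h1⟩ := h K hK hKs hKc (x / 2) (half_pos hx)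
      exact H510.UZ.density_low K hK hKs {riemannZeta} x hx c hc h1
    tfae_have 1 → 2 := by
      intro hRH K hK hKs hKc x hx
      obtain ⟨p, hp, h⟩ := hden K hK hKs {riemannZeta} x hx (hfwd hRH K hK hKs hKc (x / 2) (half_pos hx))
      exact ⟨p, hp, h.mono fun T hT => hT.1.trans (hS T _ _ (hto K riemannZeta x))⟩
    tfae_have 1 → 3 := by
      intro hRH K hK hKs hKc x hx
      obtain ⟨p, hp, h⟩ := hden K hK hKs {riemannZeta} x hx (hfwd hRH K hK hKs hKc (x / 2) (half_pos hx))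
      exact ⟨p, hp, h.mono fun T hT => hT.2.trans (hLg T _ _ (hto K riemannZeta x))⟩
    tfae_have 2 → 1 := by
      intro h
      apply hbwd
      intro K hK hKs hKc x hx
      obtain ⟨p, hp, h1⟩ := h K hK hKs hKc (x / 4) (by positivity)
      refine hSden K hK hKs {riemannZeta} x p hx hp (h1.mono fun T hT => hT.trans (hS T _ _ fun t ht => ?_))
      exact hfrom K riemannZeta (x / 4) (x / 2) t (by linarith) ht
    tfae_have 3 → 1 := by
      intro h
      apply hbwd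
      intro K hK hKs hKc x hx
      obtain ⟨p, hp, h1⟩ := h K hK hKs hKc (x / 4) (by positivity)
      refine hLden K hK hKs {riemannZeta} x p hx hp (h1.mono fun T hT => hT.trans (hLg T _ _ fun t ht => ?_))
      exact hfrom K riemannZeta (x / 4) (x / 2) t (by linarith) ht
    tfae_finish

end Pool.Agent.Results.MP_ca0a54_nt.GapsInUniversalityClasses
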