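import Pool.Agent.H481.SG5

/-!
# Gaps below half the mean spacing: exactly which range of correlations is needed

What is known about the zeros `1/2 + i γ` of `ζ` beyond their density are their correlations in a
bounded range of frequencies (Montgomery; Hejhal; Rudnick and Sarnak).  In the unitary model, with
`N` points of the unit circle instead of the zeros, the correlations of range `R` are the means
`E[F(z) conj G(z)]` for the polynomials `F`, `G` of degree at most `R`, and the prediction is
their value for the eigenvalues of a Haar distributed unitary `N × N` matrix; the mean spacing is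
`2π / N` and the known range is `R = N`.  How small a gap do the correlations of range `R` force?

It is proved that the answer is exactly `2π / (N + R)`, that is `1 / (1 + λ)` mean spacings for the
range `R = λ N`, for all `N ≥ 2` and `R ≥ 1`: there are points with all the correlations of range
`R` and all gaps at least `2π / (N + R)`, but for no law with these correlations all gaps are
almost surely larger than, or at least any number larger than, `2π / (N + R)`; and if all gaps are
at least `2π / (N + R)`, then all the points are on one rotated copy of the grid of the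
`(N + R)`-th roots of unity (the analogue of the Alternative Hypothesis), which happens for
`R ≥ N - 1` if and only if the form factor `E |∑ z_j^k|²` has the extreme value `N²` at
`k = N + R`.  In particular the correlations of range `R` force gaps below one half of the mean
spacing if and only if `R > N`: any range beyond the known one suffices, the known one does not.

The case `R = N` of the rigidity statement is the library theorem `UnitaryModel` for this problem;
the proof follows its idea.  Let `M = N + R`, `ω = exp (2π i / M)` and `P(x) = ∏ (x - z_i)`.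
The numbers `τ_j = P(ω z_j) / (z_j P'(z_j))` are, up to a common phase, real and nonnegative if all
gaps are at least `2π / M`.  Let `A(x)` be the part of degree at most `R` of the power series of
`x^N / P(x)` in `1/x`.  By partial fractions `∑ τ_j |A(ω z_j)|²` is a combination of products
`F conj G` with `F`, `G` of the same degree at most `R`; for subsets of the `M`-th roots of unity
it vanishes, as `A` is then the polynomial of the complementary set, hence its mean is zero for all
laws in question.  So it vanishes almost surely, and then the remainder `S` of `x^M` modulo `P`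
satisfies `S(ω z_j) = S(z_j)` for all `j`, so that it is constant.  A larger separation is
impossible since the rigidity for `R - 1` would put the points also on a grid of `M - 1` points.
-/

open MeasureTheory

namespace Pool.Agent.Results.MP_ca0a54_nt.RangeBeyondN

/-- the mean of `f` over the eigenvalues `z = (e^{iθ_1}, …, e^{iθ_N})` of a Haar distributed
unitary `N × N` matrix (Weyl's formula):
`(N! (2π)^N)⁻¹ ∫_{(0, 2π]^N} f(z) ∏_{i < j} |z_j - z_i|² dθ` -/
noncomputable def haarMean (N : ℕ) (f : (Fin N → ℂ) → ℂ) : ℂ :=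
  ((N.factorial : ℂ) * (2 * Real.pi) ^ N)⁻¹ *
    ∫ θ in Set.univ.pi fun _ : Fin N => Set.Ioc (0 : ℝ) (2 * Real.pi),
      f (fun j => Complex.exp (Complex.I * θ j)) *
        ((∏ i : Fin N, ∏ j ∈ Finset.Ioi i,
          ‖Complex.exp (Complex.I * θ j) - Complex.exp (Complex.I * θ i)‖ ^ 2 : ℝ) : ℂ)

/-- `ν` is a law of `N` points on the unit circle with the means `E[F(z) conj G(z)]` of the
eigenvalues of a Haar distributed unitary `N × N` matrix, for all polynomials `F`, `G` of total
degree at most `R` -/
structure Agrees (N R : ℕ) (ν : Measure (Fin N → ℂ)) : Prop where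
  prob : IsProbabilityMeasure ν
  unit : ∀ᵐ z ∂ν, ∀ i, ‖z i‖ = 1
  moments : ∀ F G : MvPolynomial (Fin N) ℂ, F.totalDegree ≤ R → G.totalDegree ≤ R →
    ∫ z, MvPolynomial.eval z F * (starRingEnd ℂ) (MvPolynomial.eval z G) ∂ν =
      haarMean N (fun z => MvPolynomial.eval z F * (starRingEnd ℂ) (MvPolynomial.eval z G))

/-- the same with fewer conditions: only for symmetric polynomials `F`, `G` that are homogeneous of
the same degree at most `R` -/
structure Mimics (N R : ℕ) (ν : Measure (Fin N → ℂ)) : Prop where
  prob : IsProbabilityMeasure ν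
  unit : ∀ᵐ z ∂ν, ∀ i, ‖z i‖ = 1
  moments : ∀ n ≤ R, ∀ F G : MvPolynomial (Fin N) ℂ, F.IsSymmetric → G.IsSymmetric →
    F.IsHomogeneous n → G.IsHomogeneous n →
    ∫ z, MvPolynomial.eval z F * (starRingEnd ℂ) (MvPolynomial.eval z G) ∂ν =
      haarMean N (fun z => MvPolynomial.eval z F * (starRingEnd ℂ) (MvPolynomial.eval z G))

/-- almost surely any two points are at angular distance at least `x` (`0 ≤ x ≤ π`): their
distance is at least the chord of the angle `x` -/
def Separated {N : ℕ} (x : ℝ) (ν : Measure (Fin N → ℂ)) : Prop :=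
  ∀ᵐ z ∂ν, ∀ i j, i ≠ j → ‖1 - Complex.exp (Complex.I * x)‖ ≤ ‖z i - z j‖

/-- almost surely all the points are on one rotated copy of the grid of the `M`-th roots of
unity -/
def Lattice {N : ℕ} (M : ℕ) (ν : Measure (Fin N → ℂ)) : Prop :=
  ∀ᵐ z ∂ν, ∀ i j, z i ^ M = z j ^ M

/-- almost surely the points are distinct -/
def Distinct {N : ℕ} (ν : Measure (Fin N → ℂ)) : Prop := ∀ᵐ z ∂ν, Function.Injective z

theorem Agrees.mimics {N R : ℕ} {ν : Measure (Fin N → ℂ)} (h : Agrees N R ν) : Mimics N R ν :=
  ⟨h.prob, h.unit, fun _ hn F G _ _ hF hG =>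
    h.moments F G (hF.totalDegree_le.trans hn) (hG.totalDegree_le.trans hn)⟩

lemma sep_iff {N : ℕ} (R : ℕ) (ν : Measure (Fin N → ℂ)) :
    Separated (2 * Real.pi / ((N : ℝ) + R)) ν ↔
      ∀ᵐ z ∂ν, ∀ i j, i ≠ j → ‖1 - Pool.Agent.H481.SG.ow (N + R)‖ ≤ ‖z i - z j‖ := by
  have h := Pool.Agent.H481.SG.ow_ch (N + R)
  have hcast : ((N + R : ℕ) : ℝ) = (N : ℝ) + R := by push_cast; rfl
  rw [hcast] at h
  rw [h]
  exact Iff.rfl

/-- **Theorem.** Let `N ≥ 2` and `R ≥ 1`.
(1) For `0 ≤ x ≤ π` there is a law with all the correlations of range `R` and all gaps at least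
`x` if and only if `x ≤ 2π / (N + R)`; and the condition remains necessary for the larger class of
laws `Mimics N R`.
(2) For the laws `ν` of this larger class all gaps are at least `2π / (N + R)` if and only if the
points are distinct and on a rotated copy of the grid of the `(N + R)`-th roots of unity.
(3) If `R ≥ N - 1` this is the case if and only if all the points are on such a grid, and if and
only if `E |∑ z_j^(N + R)|² = N²`.
(4) All the laws with the correlations of range `R`, and all the laws in `Mimics N R`, have gaps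
less than one half of the mean spacing `2π / N` with positive probability if and only if
`R > N`. -/
theorem result (N R : ℕ) (hN : 2 ≤ N) (hR : 1 ≤ R) :
    (∀ x : ℝ, 0 ≤ x → x ≤ Real.pi →
      ((∃ ν : Measure (Fin N → ℂ), Agrees N R ν ∧ Separated x ν) ↔
        x ≤ 2 * Real.pi / ((N : ℝ) + R)) ∧
      ((∃ ν : Measure (Fin N → ℂ), Mimics N R ν ∧ Separated x ν) ↔
        x ≤ 2 * Real.pi / ((N : ℝ) + R))) ∧
    (∀ ν : Measure (Fin N → ℂ), Mimics N R ν →
      (Separated (2 * Real.pi / ((N : ℝ) + R)) ν ↔ Lattice (N + R) ν ∧ Distinct ν)) ∧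
    (N ≤ R + 1 → ∀ ν : Measure (Fin N → ℂ), Mimics N R ν →
      (Separated (2 * Real.pi / ((N : ℝ) + R)) ν ↔ Lattice (N + R) ν) ∧
      (Separated (2 * Real.pi / ((N : ℝ) + R)) ν ↔
        ∫ z, ‖∑ j, z j ^ (N + R)‖ ^ 2 ∂ν = (N : ℝ) ^ 2)) ∧
    ((∀ ν : Measure (Fin N → ℂ), Agrees N R ν → ¬ Separated (Real.pi / N) ν) ↔ N < R) ∧
    ((∀ ν : Measure (Fin N → ℂ), Mimics N R ν → ¬ Separated (Real.pi / N) ν) ↔ N < R) := by
  have hpi := Real.pi_pos
  have hNr : (2 : ℝ) ≤ N := by exact_mod_cast hN
  have hRr : (1 : ℝ) ≤ R := by exact_mod_cast hR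
  have hNR : (0 : ℝ) < (N : ℝ) + R := by linarith
  have hδπ : 2 * Real.pi / ((N : ℝ) + R) ≤ Real.pi := by
    rw [div_le_iff₀ hNR]
    nlinarith
  have hexist : ∀ x : ℝ, 0 ≤ x → x ≤ 2 * Real.pi / ((N : ℝ) + R) →
      ∃ ν : Measure (Fin N → ℂ), Agrees N R ν ∧ Separated x ν := by
    intro x hx hx2
    refine ⟨Pool.Agent.H481.SG.glaw N (N + R), ⟨?_, ?_, ?_⟩, ?_⟩
    · exact Pool.Agent.H481.SG.glaw_prob (by omega) (by omega)
    · exact Pool.Agent.H481.SG.glaw_unit _
    · exact fun F G hF hG => Pool.Agent.H481.SG.glaw_mom (by omega) (le_refl _) F G hF hG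
    · have h := (sep_iff R _).2 (Pool.Agent.H481.SG.glaw_sep (N := N) (M := N + R) (by omega))
      unfold Separated at h ⊢
      filter_upwards [h] with z hz i j hij
      exact (Pool.Agent.H481.SG.ch_mono hx hx2 hδπ).trans (hz i j hij)
  have hno : ∀ ν : Measure (Fin N → ℂ), Mimics N R ν → ∀ x : ℝ,
      2 * Real.pi / ((N : ℝ) + R) < x → x ≤ Real.pi → ¬ Separated x ν := by
    intro ν hν x hx hx2 hs
    have := hν.prob
    exact Pool.Agent.H481.SG.no_sep hN hR hν.unit hν.moments hx hx2 hs
  have hrig : ∀ ν : Measure (Fin N → ℂ), Mimics N R ν →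
      Separated (2 * Real.pi / ((N : ℝ) + R)) ν → Lattice (N + R) ν ∧ Distinct ν := by
    intro ν hν hs
    have := hν.prob
    rw [sep_iff] at hs
    refine ⟨Pool.Agent.H481.SG.rigid (by omega) (by omega) hν.unit hν.moments hs, ?_⟩
    have hpos : 0 < ‖1 - Pool.Agent.H481.SG.ow (N + R)‖ :=
      norm_pos_iff.2 (sub_ne_zero.2 (Pool.Agent.H481.SG.ow_ne_one (by omega)).symm)
    unfold Distinct
    filter_upwards [hs] with z hz i j hij
    by_contra hne
    have h := hz i j hne
    rw [hij, sub_self, norm_zero] at h
    linarith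
  have hback : ∀ ν : Measure (Fin N → ℂ), Mimics N R ν → Lattice (N + R) ν → Distinct ν →
      Separated (2 * Real.pi / ((N : ℝ) + R)) ν := by
    intro ν hν hl hd
    rw [sep_iff]
    filter_upwards [hν.unit, hl, hd] with z h1 h2 h3
    exact Pool.Agent.H481.SG.lat_sep (by omega) h1 h2 h3
  have hhalf : Real.pi / N ≤ 2 * Real.pi / ((N : ℝ) + R) ↔ R ≤ N := by
    rw [div_le_div_iff₀ (by linarith) hNR]
    constructor
    · intro h
      have h2 : (R : ℝ) ≤ N := by
        by_contra h3
        push Not at h3
        nlinarith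
      exact_mod_cast h2
    · intro h
      have h2 : (R : ℝ) ≤ N := by exact_mod_cast h
      nlinarith
  have hh0 : 0 ≤ Real.pi / N := by positivity
  have hhπ : Real.pi / N ≤ Real.pi := by
    rw [div_le_iff₀ (by linarith)]
    nlinarith
  refine ⟨fun x hx hx2 => ⟨⟨?_, hexist x hx⟩, ⟨?_, ?_⟩⟩, ?_, ?_, ?_, ?_⟩
  · rintro ⟨ν, hν, hs⟩
    by_contra h
    exact hno ν hν.mimics x (not_le.1 h) hx2 hs
  · rintro ⟨ν, hν, hs⟩
    by_contra h
    exact hno ν hν x (not_le.1 h) hx2 hs
  · intro h
    obtain ⟨ν, hν, hs⟩ := hexist x hx h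
    exact ⟨ν, hν.mimics, hs⟩
  · exact fun ν hν => ⟨hrig ν hν, fun h => hback ν hν h.1 h.2⟩
  · intro hRN ν hν
    have := hν.prob
    have h1 : Separated (2 * Real.pi / ((N : ℝ) + R)) ν ↔ Lattice (N + R) ν :=
      ⟨fun h => (hrig ν hν h).1, fun h => hback ν hν h
        (Pool.Agent.H481.SG.lat_inj (by omega) hR hRN hν.unit hν.moments h)⟩
    exact ⟨h1, h1.trans (Pool.Agent.H481.SG.lat_iff_mom' (N + R) hν.unit)⟩
  · constructor
    · intro h
      by_contra hc
      obtain ⟨ν, hν, hs⟩ := hexist _ hh0 (hhalf.2 (not_lt.1 hc))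
      exact h ν hν hs
    · intro h ν hν
      refine hno ν hν.mimics _ ?_ hhπ
      by_contra hc
      have := hhalf.1 (not_lt.1 hc)
      omega
  · constructor
    · intro h
      by_contra hc
      obtain ⟨ν, hν, hs⟩ := hexist _ hh0 (hhalf.2 (not_lt.1 hc))
      exact h ν hν.mimics hs
    · intro h ν hν
      refine hno ν hν _ ?_ hhπ
      by_contra hc
      have := hhalf.1 (not_lt.1 hc)
      omega

end Pool.Agent.Results.MP_ca0a54_nt.RangeBeyondN
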